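import Pool.Agent.Helper64.Rig.Basics

/-!
# Packet Cusp (MP_148db9_ag)
-/

namespace Pool.Agent.Helper3.Rig

open MvPolynomial Module Pool.Agent.Helper64.Rig

variable {K : Type} [Field K] [Algebra ℂ K] {ζ : ℂ} {x : Jx → K}

/-- The cusp condition of order `e` at the point `j`. -/
noncomputable def Wc (ζ : ℂ) (x : Jx → K) (r : ℕ) (j : Jx) (e : ℕ) : Submodule ℂ K :=
  (AA x (r - e)).map (LinearMap.mulLeft ℂ (pr x j.1 ^ e)) ⊔
    (AA x (r - 1)).map (LinearMap.mulLeft ℂ (el ζ x j))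

theorem mem_Wc {r : ℕ} {j : Jx} {e : ℕ} {b : K} :
    b ∈ Wc ζ x r j e ↔ ∃ A ∈ AA x (r - e), ∃ B ∈ AA x (r - 1),
      b = pr x j.1 ^ e * A + el ζ x j * B := by
  unfold Wc
  rw [Submodule.mem_sup]
  constructor
  · rintro ⟨_, ⟨A, hA, rfl⟩, _, ⟨B, hB, rfl⟩, rfl⟩
    exact ⟨A, hA, B, hB, rfl⟩
  · rintro ⟨A, hA, B, hB, rfl⟩
    exact ⟨_, ⟨A, hA, rfl⟩, _, ⟨B, hB, rfl⟩, rfl⟩

theorem AA_cast {f : K} {q q' : ℕ} (hf : f ∈ AA x q) (h : q = q') : f ∈ AA x q' := h ▸ hf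

theorem Wc_le {r : ℕ} {j : Jx} {e : ℕ} (he : e ≤ r) (hr : 1 ≤ r) : Wc ζ x r j e ≤ AA x r := by
  intro b hb
  obtain ⟨A, hA, B, hB, rfl⟩ := mem_Wc.1 hb
  refine Submodule.add_mem _ (AA_cast (AA_mul (AA_pow (pr_mem_AA (x := x) j.1) e) hA) (by omega))
    (AA_cast (AA_mul (el_mem_AA j) hB) (by omega))

theorem pow_mem1 {f : K} (hf : f ∈ AA x 1) (n : ℕ) : f ^ n ∈ AA x n :=
  AA_cast (AA_pow hf n) (by omega)

/-- The monomials in the three sections. -/
theorem mono3_mem {r : ℕ} {j : Jx} {e : ℕ} (he : e ≤ r) : ∀ t s u : ℕ, s + t + u = r →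
    pr x j.1 ^ s * pr x (j.1 + 1) ^ t * pr x (j.1 + 2) ^ u ∈
      Wc ζ x r j e ⊔ Submodule.span ℂ (Set.range fun s : Fin e =>
        pr x j.1 ^ (s : ℕ) * pr x (j.1 + 2) ^ (r - (s : ℕ))) := by
  intro t
  induction t with
  | zero =>
    intro s u hs
    by_cases hse : s < e
    · refine Submodule.mem_sup_right (Submodule.subset_span ⟨⟨s, hse⟩, ?_⟩)
      have : u = r - s := by omega
      simp [this]
    · refine Submodule.mem_sup_left (mem_Wc.2 ⟨pr x j.1 ^ (s - e) * pr x (j.1 + 2) ^ u, ?_, 0,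
        Submodule.zero_mem _, ?_⟩)
      · exact AA_cast (AA_mul (pow_mem1 (pr_mem_AA j.1) _) (pow_mem1 (pr_mem_AA (j.1 + 2)) _))
          (by omega)
      · rw [mul_zero, add_zero, pow_zero, mul_one, ← mul_assoc, ← pow_add]
        congr 3
        omega
  | succ t ih =>
    intro s u hs
    have h1 := ih s (u + 1) (by omega)
    have h2 : el ζ x j * (pr x j.1 ^ s * pr x (j.1 + 1) ^ t * pr x (j.1 + 2) ^ u) ∈
        Wc ζ x r j e := by
      refine mem_Wc.2 ⟨0, Submodule.zero_mem _, _, ?_, by rw [mul_zero, zero_add]⟩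
      exact AA_cast (AA_mul (AA_mul (pow_mem1 (pr_mem_AA j.1) _) (pow_mem1 (pr_mem_AA (j.1 + 1)) _))
        (pow_mem1 (pr_mem_AA (j.1 + 2)) _)) (by omega)
    have h3 : pr x j.1 ^ s * pr x (j.1 + 1) ^ (t + 1) * pr x (j.1 + 2) ^ u =
        el ζ x j * (pr x j.1 ^ s * pr x (j.1 + 1) ^ t * pr x (j.1 + 2) ^ u) -
        (ζ ^ (j.2 : ℕ)) • (pr x j.1 ^ s * pr x (j.1 + 1) ^ t * pr x (j.1 + 2) ^ (u + 1)) := by
      rw [Algebra.smul_def]
      unfold el
      ring
    rw [h3]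
    exact Submodule.sub_mem _ (Submodule.mem_sup_left h2) (Submodule.smul_mem _ _ h1)

omit [Algebra ℂ K] in
theorem perm3 (i : Fin 3) (f : Fin 3 → K) : ∏ l, f l = f i * f (i + 1) * f (i + 2) := by
  rw [Fin.prod_univ_three]
  fin_cases i
  · rfl
  · change f 0 * f 1 * f 2 = f 1 * f 2 * f 0
    ring
  · change f 0 * f 1 * f 2 = f 2 * f 0 * f 1
    ring

theorem perm3' (i : Fin 3) (f : Fin 3 → ℕ) : ∑ l, f l = f i + f (i + 1) + f (i + 2) := by
  rw [Fin.sum_univ_three]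
  fin_cases i
  · rfl
  · change f 0 + f 1 + f 2 = f 1 + f 2 + f 0
    ring
  · change f 0 + f 1 + f 2 = f 2 + f 0 + f 1
    ring

theorem AA_le_sup {r : ℕ} {j : Jx} {e : ℕ} (he : e ≤ r) :
    AA x r ≤ Wc ζ x r j e ⊔ Submodule.span ℂ (Set.range fun s : Fin e =>
        pr x j.1 ^ (s : ℕ) * pr x (j.1 + 2) ^ (r - (s : ℕ))) := by
  intro f hf
  obtain ⟨F, hF, rfl⟩ := mem_AA.1 hf
  rw [aeval_def, eval₂_eq']
  refine Submodule.sum_mem _ fun m hm => ?_
  rw [← Algebra.smul_def]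
  refine Submodule.smul_mem _ _ ?_
  have hd := degree_of_homog hF (mem_support_iff.1 hm)
  rw [Finsupp.degree_eq_sum, perm3' j.1 (fun l => m l)] at hd
  rw [perm3 j.1 (fun l => pr x l ^ m l)]
  exact mono3_mem he _ _ _ hd

theorem finrank_Wc {r : ℕ} (hfin : FiniteDimensional ℂ (AA x r)) {j : Jx} {e : ℕ} (he : e ≤ r)
    (hr : 1 ≤ r) : finrank ℂ (AA x r) ≤ finrank ℂ (Wc ζ x r j e) + e := by
  have hW : FiniteDimensional ℂ (Wc ζ x r j e) := Submodule.finiteDimensional_of_le (Wc_le he hr)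
  set S : Submodule ℂ K := Submodule.span ℂ (Set.range fun s : Fin e =>
        pr x j.1 ^ (s : ℕ) * pr x (j.1 + 2) ^ (r - (s : ℕ))) with hS
  have hSf : FiniteDimensional ℂ S := FiniteDimensional.span_of_finite ℂ (Set.finite_range _)
  have h1 : finrank ℂ S ≤ e := by
    have := finrank_range_le_card (R := ℂ) (fun s : Fin e =>
        pr x j.1 ^ (s : ℕ) * pr x (j.1 + 2) ^ (r - (s : ℕ)))
    simpa [Set.finrank] using this
  have h2 : finrank ℂ (AA x r) ≤ finrank ℂ (Wc ζ x r j e ⊔ S : Submodule ℂ K) :=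
    Submodule.finrank_mono (AA_le_sup he)
  have h3 := Submodule.finrank_add_le_finrank_add_finrank (Wc ζ x r j e) S
  omega

/-- Part (ii). -/
theorem pow_five_div (h : Cov ζ x) {r : ℕ} (hr : 60 ≤ r) {j : Jx} {e : ℕ} (he : e ≤ 4) {b : K}
    (hb : b ∈ Wc ζ x r j e) : ∃ g ∈ AA x (5 * r - e), b ^ 5 = el ζ x j ^ e * g := by
  obtain ⟨A, hA, B, hB, rfl⟩ := mem_Wc.1 hb
  obtain ⟨H, hH, hp⟩ : ∃ H ∈ AA x 4, pr x j.1 ^ 5 = el ζ x j * H := by
    refine ⟨-hat x j, Submodule.neg_mem _ (hat_mem_AA h j), ?_⟩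
    rw [← hat_mul (x := x) j, pow_five h]
    ring
  have key : ∀ s ∈ Finset.range 6, (pr x j.1 ^ e * A) ^ s * (el ζ x j * B) ^ (5 - s) *
      ((5 : ℕ).choose s : K) ∈ (AA x (5 * r - e)).map (LinearMap.mulLeft ℂ (el ζ x j ^ e)) := by
    intro s hs
    rw [Finset.mem_range] at hs
    have hexp : e ≤ e * s / 5 + (5 - s) := by
      interval_cases e <;> interval_cases s <;> norm_num
    have hdeg : (e * s / 5 + (5 - s) - e) + (e * s / 5) * 4 + (e * s % 5) + s * (r - e) +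
        (5 - s) * (r - 1) + 0 = 5 * r - e := by
      interval_cases e <;> interval_cases s <;> omega
    refine ⟨el ζ x j ^ (e * s / 5 + (5 - s) - e) * H ^ (e * s / 5) * pr x j.1 ^ (e * s % 5) *
      A ^ s * B ^ (5 - s) * ((5 : ℕ).choose s : K), ?_, ?_⟩
    · refine AA_cast (AA_mul (AA_mul (AA_mul (AA_mul (AA_mul (pow_mem1 (el_mem_AA j) _)
        (AA_pow hH _)) (pow_mem1 (pr_mem_AA j.1) _)) (AA_pow hA _)) (AA_pow hB _)) ?_) hdeg
      have := const_mem_AA (x := x) ((5 : ℕ).choose s : ℂ)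
      rwa [map_natCast] at this
    · change el ζ x j ^ e * _ = _
      have e1 : el ζ x j ^ e * el ζ x j ^ (e * s / 5 + (5 - s) - e) =
          el ζ x j ^ (e * s / 5) * el ζ x j ^ (5 - s) := by
        rw [← pow_add, ← pow_add]
        congr 1
        omega
      have e2 : pr x j.1 ^ (e * s) = el ζ x j ^ (e * s / 5) * H ^ (e * s / 5) *
          pr x j.1 ^ (e * s % 5) := by
        rw [← mul_pow, ← hp, ← pow_mul, ← pow_add]
        congr 1
        omega
      rw [mul_pow, mul_pow, ← pow_mul, e2]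
      linear_combination (H ^ (e * s / 5) * pr x j.1 ^ (e * s % 5) *
        A ^ s * B ^ (5 - s) * ((5 : ℕ).choose s : K)) * e1
  have hsum : (pr x j.1 ^ e * A + el ζ x j * B) ^ 5 ∈
      (AA x (5 * r - e)).map (LinearMap.mulLeft ℂ (el ζ x j ^ e)) := by
    rw [add_pow]
    exact Submodule.sum_mem _ key
  obtain ⟨g, hg, hg'⟩ := hsum
  exact ⟨g, hg, hg'.symm⟩

/-- The intersection of the conditions. -/
noncomputable def WW (ζ : ℂ) (x : Jx → K) (r : ℕ) (a : Jx → ℕ) (S : Finset Jx) : Submodule ℂ K :=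
  AA x r ⊓ ⨅ j ∈ S, Wc ζ x r j (a j)

theorem WW_insert {r : ℕ} {a : Jx → ℕ} {S : Finset Jx} {j : Jx} :
    WW ζ x r a (insert j S) = WW ζ x r a S ⊓ Wc ζ x r j (a j) := by
  unfold WW
  rw [Finset.iInf_insert, inf_comm (Wc ζ x r j (a j)), inf_assoc]

theorem finrank_WW {r : ℕ} (hfin : FiniteDimensional ℂ (AA x r)) {a : Jx → ℕ} (ha : ∀ j, a j ≤ 4)
    (hr : 60 ≤ r) (S : Finset Jx) :
    finrank ℂ (AA x r) ≤ finrank ℂ (WW ζ x r a S) + ∑ j ∈ S, a j := by
  induction S using Finset.induction_on with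
  | empty =>
    have : WW ζ x r a ∅ = AA x r := by simp [WW]
    rw [this]
    simp
  | insert j S hj ih =>
    rw [WW_insert, Finset.sum_insert hj]
    have h1 : WW ζ x r a S ≤ AA x r := inf_le_left
    have hje : a j ≤ r := by have := ha j; omega
    have h2 : Wc ζ x r j (a j) ≤ AA x r := Wc_le hje (by omega)
    have hf1 : FiniteDimensional ℂ (WW ζ x r a S) := Submodule.finiteDimensional_of_le h1
    have hf2 : FiniteDimensional ℂ (Wc ζ x r j (a j)) := Submodule.finiteDimensional_of_le h2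
    have h3 := Submodule.finrank_sup_add_finrank_inf_eq (WW ζ x r a S) (Wc ζ x r j (a j))
    have h4 : finrank ℂ (WW ζ x r a S ⊔ Wc ζ x r j (a j) : Submodule ℂ K) ≤ finrank ℂ (AA x r) :=
      Submodule.finrank_mono (sup_le h1 h2)
    have h5 := finrank_Wc (ζ := ζ) hfin (j := j) hje (by omega)
    omega

/-- The lemma of part (iv). -/
theorem cop_prod (hCop : StmtCop) (h : Cov ζ x) (a : Jx → ℕ) (j' : Jx) (k' : ℕ) (g : K) (q : ℕ)
    (h1 : el ζ x j' ^ k' * g ∈ AA x (q + k')) (S : Finset Jx) (hj : j' ∉ S)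
    (h2 : (∏ j ∈ S, el ζ x j ^ a j) * g ∈ AA x (q + ∑ j ∈ S, a j)) : g ∈ AA x q := by
  induction S using Finset.induction_on with
  | empty => simpa using h2
  | insert j S hjS ih =>
    rw [Finset.mem_insert, not_or] at hj
    apply ih hj.2
    have hprod : ∀ T : Finset Jx, ∏ j ∈ T, el ζ x j ^ a j ∈ AA x (∑ j ∈ T, a j) := by
      intro T
      induction T using Finset.induction_on with
      | empty => simpa using one_mem_AA
      | insert b T hb ih =>
        rw [Finset.prod_insert hb, Finset.sum_insert hb]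
        exact AA_mul (pow_mem1 (el_mem_AA b) _) ih
    refine hCop K ζ x h j j' (Ne.symm hj.1) _ _ (a j) k' ?_ ?_
    · rw [Finset.prod_insert hjS, Finset.sum_insert hjS] at h2
      rw [← mul_assoc]
      exact AA_cast h2 (by omega)
    · have := AA_mul (hprod S) h1
      refine AA_cast (q := (∑ j ∈ S, a j) + (q + k')) ?_ (by omega)
      convert this using 1
      ring

theorem pow_five_WW (hCop : StmtCop) (h : Cov ζ x) {r : ℕ} (hr : 60 ≤ r) {a : Jx → ℕ}
    (ha : ∀ j, a j ≤ 4) {b : K} (hb : b ∈ WW ζ x r a Finset.univ) (S : Finset Jx) :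
    b ^ 5 / ∏ j ∈ S, el ζ x j ^ a j ∈ AA x (5 * r - ∑ j ∈ S, a j) := by
  have hbj : ∀ j, b ∈ Wc ζ x r j (a j) := by
    intro j
    have := (Submodule.mem_inf.1 hb).2
    simp only [Submodule.mem_iInf] at this
    exact this j (Finset.mem_univ j)
  have hbA : b ∈ AA x r := (Submodule.mem_inf.1 hb).1
  have hcard : ∀ T : Finset Jx, ∑ j ∈ T, a j ≤ 60 := by
    intro T
    calc ∑ j ∈ T, a j ≤ ∑ j : Jx, a j :=
          Finset.sum_le_sum_of_subset (Finset.subset_univ _)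
      _ ≤ ∑ j : Jx, 4 := Finset.sum_le_sum fun j _ => ha j
      _ = 60 := by simp
  have hne : ∀ T : Finset Jx, ∏ j ∈ T, el ζ x j ^ a j ≠ 0 := fun T =>
    Finset.prod_ne_zero_iff.2 fun j _ => pow_ne_zero _ (el_ne h j)
  induction S using Finset.induction_on with
  | empty =>
    simp only [Finset.prod_empty, div_one, Finset.sum_empty, Nat.sub_zero]
    exact AA_pow hbA 5
  | insert j' S hj' ih =>
    have hc := hcard (insert j' S)
    obtain ⟨g', hg', hbg⟩ := pow_five_div h hr (ha j') (hbj j')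
    have hp1 : el ζ x j' ^ a j' ≠ 0 := pow_ne_zero _ (el_ne h j')
    have hp2 := hne S
    rw [Finset.sum_insert hj'] at hc ⊢
    rw [Finset.prod_insert hj']
    refine cop_prod hCop h a j' (a j') _ _ ?_ S hj' ?_
    · have e1 : el ζ x j' ^ a j' * (b ^ 5 / (el ζ x j' ^ a j' * ∏ j ∈ S, el ζ x j ^ a j)) =
          b ^ 5 / ∏ j ∈ S, el ζ x j ^ a j := by
        field_simp
      rw [e1]
      exact AA_cast ih (by omega)
    · have e2 : (∏ j ∈ S, el ζ x j ^ a j) *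
          (b ^ 5 / (el ζ x j' ^ a j' * ∏ j ∈ S, el ζ x j ^ a j)) = g' := by
        rw [hbg]
        field_simp
      rw [e2]
      exact AA_cast hg' (by omega)

/-- Packet Cusp. -/
theorem pf_Cusp (hCop : StmtCop) (hDim : StmtDim) : StmtCusp := by
  intro K _ _ ζ x h a ha r hr
  have hfin : FiniteDimensional ℂ (AA x r) := (hDim K ζ x h).1 r
  refine ⟨WW ζ x r a Finset.univ, inf_le_left, finrank_WW hfin ha hr _, fun b hb => ?_⟩
  have h1 := pow_five_WW hCop h hr ha hb Finset.univ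
  have e : (b / mono x a) ^ 5 =
      algebraMap ℂ K ((-1) ^ (∑ j, a j)) * (b ^ 5 / ∏ j, el ζ x j ^ a j) := by
    rw [div_pow, mono_pow_five h]
    have e3 : ∏ j, (-el ζ x j) ^ a j = (-1) ^ (∑ j, a j) * ∏ j, el ζ x j ^ a j := by
      rw [← Finset.prod_pow_eq_pow_sum, ← Finset.prod_mul_distrib]
      exact Finset.prod_congr rfl fun j _ => by rw [neg_pow]
    rw [e3, map_pow, map_neg, map_one]
    have hs : ((-1 : K) ^ (∑ j, a j)) * (-1) ^ (∑ j, a j) = 1 := by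
      rw [← mul_pow]; simp
    have hs0 : ((-1 : K) ^ (∑ j, a j)) ≠ 0 := left_ne_zero_of_mul_eq_one hs
    have hne : ∏ j, el ζ x j ^ a j ≠ 0 :=
      Finset.prod_ne_zero_iff.2 fun j _ => pow_ne_zero _ (el_ne h j)
    rw [div_eq_iff (mul_ne_zero hs0 hne)]
    field_simp
    linear_combination (-(b ^ 5)) * hs
  rw [e]
  exact const_mul_mem_AA _ h1

end Pool.Agent.Helper3.Rig
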